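import Pool.Agent.Results.MP_ece58e_al.LocallyGraded

/-!
# Transitive groups with cyclic point stabilizers with finitely many orbits

Let `G` act transitively on an infinite set `Ω` such that a point stabilizer is cyclic and has only finitely many orbits on
`Ω`. We prove that `G` has a finitely generated nontrivial normal subgroup which has no proper subgroup of finite index. So
`G` is not locally graded; the groups of Q1 (primitive Frobenius groups) are not locally graded, in particular not locally
residually finite and not linear. This is the theorem of the starting file `LocallyGraded` of the page MP_ece58e_al, for the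
double cosets of the point stabilizer.
-/

set_option autoImplicit false

namespace Pool.Agent.Results.MP_1b5374_al.NotLocallyGraded

/-- A group is locally graded if each nontrivial finitely generated subgroup has a proper subgroup of finite index. -/
def IsLocallyGraded (G : Type) [Group G] : Prop :=
  ∀ K : Subgroup G, K.FG → K ≠ ⊥ → ∃ L : Subgroup G, L < K ∧ L.relIndex K ≠ 0

/-- **Transitive groups with cyclic point stabilizers with finitely many orbits.** If `G` is transitive on an infinite set and a
point stabilizer is cyclic with finitely many orbits then some nontrivial finitely generated normal subgroup of `G` has no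
proper subgroup of finite index; so `G` is not locally graded. -/
theorem result (G Ω : Type) [Group G] [MulAction G Ω] (hinf : Infinite Ω) (htr : MulAction.IsPretransitive G Ω) (ω : Ω)
    (hC : IsCyclic (MulAction.stabilizer G ω))
    (horb : Finite (MulAction.orbitRel.Quotient (MulAction.stabilizer G ω) Ω)) :
    (∃ K : Subgroup G, K.Normal ∧ K.FG ∧ K ≠ ⊥ ∧ ∀ L : Subgroup G, L < K → L.relIndex K = 0) ∧ ¬ IsLocallyGraded G := by
  classical
  have h1 : ∃ K : Subgroup G, K.Normal ∧ K.FG ∧ K ≠ ⊥ ∧ ∀ L : Subgroup G, L < K → L.relIndex K = 0 := by
    by_contra hcon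
    push Not at hcon
    have hex : ∀ q : MulAction.orbitRel.Quotient (MulAction.stabilizer G ω) Ω, ∃ f : G, f • ω = q.out := fun q =>
      htr.exists_smul_eq ω q.out
    choose f hf using hex
    have hidx : (MulAction.stabilizer G ω).index ≠ 0 := by
      refine Pool.Agent.Results.MP_ece58e_al.LocallyGraded.result (MulAction.stabilizer G ω) (Set.range f) hC (Set.finite_range f) ?_ ?_
      · intro g
        obtain ⟨q, hq⟩ : ∃ q : MulAction.orbitRel.Quotient (MulAction.stabilizer G ω) Ω, q = Quotient.mk'' (g • ω) :=
          ⟨_, rfl⟩
        have h2 : (MulAction.orbitRel (MulAction.stabilizer G ω) Ω) (g • ω) q.out := by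
          apply Quotient.exact
          exact hq.symm.trans (Quotient.out_eq q).symm
        rw [MulAction.orbitRel_apply, MulAction.mem_orbit_iff] at h2
        obtain ⟨c, hc⟩ := h2
        have h3 : (c : G) • q.out = g • ω := hc
        refine ⟨c, c.2, f q, ⟨q, rfl⟩, ((c : G) * f q)⁻¹ * g, ?_, by group⟩
        rw [MulAction.mem_stabilizer_iff, mul_smul, ← h3, ← hf q, ← mul_smul, ← mul_smul]
        simp
      · intro K hK hfg hne
        exact hcon K hK hfg hne
    have h4' : (MulAction.stabilizer G ω).FiniteIndex := ⟨hidx⟩
    have h4 : Finite (G ⧸ MulAction.stabilizer G ω) := Subgroup.finite_quotient_of_finiteIndex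
    have h5 : Finite Ω := by
      have e : (⊤ : Set Ω) = Set.range fun g : G ⧸ MulAction.stabilizer G ω => g.out • ω := by
        apply Set.Subset.antisymm
        · intro y _
          obtain ⟨g, rfl⟩ := htr.exists_smul_eq ω y
          refine ⟨(g : G ⧸ MulAction.stabilizer G ω), ?_⟩
          have h6 : ((g : G ⧸ MulAction.stabilizer G ω).out)⁻¹ * g ∈ MulAction.stabilizer G ω := by
            rw [← QuotientGroup.eq, QuotientGroup.out_eq']
          rw [MulAction.mem_stabilizer_iff, mul_smul, inv_smul_eq_iff] at h6
          exact h6.symm
        · intro y _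
          trivial
      have h7 : (⊤ : Set Ω).Finite := by
        rw [e]
        exact Set.finite_range _
      exact Set.finite_univ_iff.1 h7
    exact not_finite_iff_infinite.2 hinf h5
  refine ⟨h1, fun hlg => ?_⟩
  obtain ⟨K, _, hfg, hne, hK⟩ := h1
  obtain ⟨L, hL, h0⟩ := hlg K hfg hne
  exact h0 (hK L hL)

end Pool.Agent.Results.MP_1b5374_al.NotLocallyGraded
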